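import Mathlib

namespace Pool.Agent.Results.MP_3b2a32_co.Chi
open Matrix

/-- Pairs (line, complementary subspace) in `kⁿ`. -/
def Vt (k : Type) [Field k] (n : ℕ) : Type :=
  {x : Submodule k (Fin n → k) × Submodule k (Fin n → k) //
    Module.finrank k x.1 = 1 ∧ IsCompl x.1 x.2}

/-- The span-colouring graph. -/
def A (k : Type) [Field k] (n : ℕ) : SimpleGraph (Vt k n) where
  Adj x y := x.1.1 ≤ y.1.2 ∧ y.1.1 ≤ x.1.2
  symm := ⟨fun _ _ h => h.symm⟩
  loopless := ⟨fun x h => by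
    have := x.2.1
    rw [x.2.2.disjoint.eq_bot_of_le h.1] at this
    simp at this⟩

variable {k : Type} [Field k] {n : ℕ}

def mk (u p : Fin n → k) (h : p ⬝ᵥ u ≠ 0) : Vt k n :=
  ⟨(k ∙ u, LinearMap.ker (dotProductBilin k k p)), finrank_span_singleton (by rintro rfl; simp at h),
    (Submodule.disjoint_span_singleton_of_notMem h).symm,
    codisjoint_iff.2 (LinearMap.span_singleton_sup_ker_eq_top _ h)⟩

theorem adj {u p u' p' : Fin n → k} (h h') (e : p' ⬝ᵥ u = 0) (e' : p ⬝ᵥ u' = 0) :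
    (A k n).Adj (mk u p h) (mk u' p' h') :=
  ⟨(Submodule.span_singleton_le_iff_mem _ _).2 e, (Submodule.span_singleton_le_iff_mem _ _).2 e'⟩

abbrev T := ℤ × ℤ × ℤ

def W : List (T × T) := [((0, 1, 0), (1, -1, 0)), ((1, 1, -1), (0, 0, 1)), ((1, 1, 0), (1, 0, 1)),
  ((0, 1, 0), (0, 1, 1)), ((1, 1, -1), (1, 0, 0)), ((0, 1, -1), (1, 0, 1)), ((0, 1, 0), (1, -1, -1)),
  ((0, 1, -1), (0, 0, 1)), ((1, 1, 0), (1, 0, 0)), ((0, 1, 1), (1, -1, 0)), ((1, 1, -1), (1, -1, 1)),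
  ((1, 1, 0), (0, 1, 1)), ((1, 0, 0), (1, -1, -1)), ((1, 0, 0), (1, -1, 0)), ((1, 1, 0), (0, 1, -1)),
  ((1, 1, 1), (0, 0, 1)), ((1, 0, 0), (1, 0, -1)), ((1, 0, 1), (0, 0, 1)), ((1, 1, 0), (0, 1, 0)),
  ((1, 0, 1), (0, 1, -1)), ((1, 1, 1), (0, 1, 0))]

def dt (a b : T) : ℤ := a.1 * b.1 + (a.2.1 * b.2.1 + a.2.2 * b.2.2)

def go : List (T × T) → List ((T × T) × Fin 3) → Bool
  | [], _ => true
  | x :: r, l => (List.finRange 3).any fun c =>
      l.all (fun y => y.2 != c || dt x.2 y.1.1 != 0 || dt y.1.2 x.1 != 0) && go r ((x, c) :: l)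

theorem go_ok (P : T × T → Prop) (c : T × T → Fin 3)
    (h : ∀ x y, P x → P y → dt x.2 y.1 = 0 → dt y.2 x.1 = 0 → c y ≠ c x) (r : List (T × T)) :
    ∀ l, (∀ x ∈ r, P x) → (∀ y ∈ l, P y.1 ∧ y.2 = c y.1) → go r l = true := by
  induction r with
  | nil => exact fun _ _ _ => rfl
  | cons x r ih =>
    intro l h1 h2
    rw [List.forall_mem_cons] at h1
    simp only [go, List.any_eq_true, Bool.and_eq_true, List.all_eq_true]
    refine ⟨c x, List.mem_finRange _, fun y hy => ?_, ih _ h1.2 (List.forall_mem_cons.2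
      ⟨⟨h1.1, rfl⟩, h2⟩)⟩
    have := h x y.1 h1.1 (h2 y hy).1
    rw [(h2 y hy).2]
    grind

def vec (m : ℕ) (a : T) : Fin (m + 3) → k := vecCons a.1 (vecCons a.2.1 (vecCons a.2.2 0))

def ej {m : ℕ} (j : Fin m) : Fin (m + 3) → k := vecCons 0 (vecCons 0 (vecCons 0 (Pi.single j 1)))

theorem result (k : Type) [Field k] (n : ℕ) (hn : 3 ≤ n) : ¬ (A k n).Colorable n := by
  obtain ⟨m, rfl⟩ : ∃ m, n = m + 3 := ⟨n - 3, by omega⟩
  rintro ⟨c⟩
  have d1 : ∀ a b, (vec m a : _ → k) ⬝ᵥ vec m b = dt a b := fun a b => by simp [vec, dt]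
  have d2 : ∀ j : Fin m, (ej j : _ → k) ⬝ᵥ ej j ≠ 0 := fun j => by simp [ej]
  let t : Fin m → Fin (m + 3) := fun j => c (mk _ _ (d2 j))
  have ht : t.Injective := fun i j e => by
    by_contra h
    exact c.valid (adj _ _ (by simp [ej, Ne.symm h]) (by simp [ej, h])) e
  have hS : (Finset.univ.image t)ᶜ.card = 3 := by
    simp [Finset.card_compl, Finset.card_image_of_injective _ ht]
  have d3 : ∀ x : T × T, (dt x.2 x.1) ^ 2 = 1 → (vec m x.2 : _ → k) ⬝ᵥ vec m x.1 ≠ 0 := by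
    intro x hx h
    have := congrArg (Int.cast : ℤ → k) hx
    simp [← d1, h] at this
  have hm : ∀ x h, c (mk _ _ (d3 x h)) ∈ (Finset.univ.image t)ᶜ := fun x h => by
    simp only [Finset.mem_compl, Finset.mem_image, not_exists, not_and]
    exact fun j _ => c.valid (adj _ _ (by simp [ej, vec]) (by simp [ej, vec]))
  have := go_ok (fun x => (dt x.2 x.1) ^ 2 = 1) (fun x => if h : (dt x.2 x.1) ^ 2 = 1 then
    Finset.equivFinOfCardEq hS ⟨_, hm x h⟩ else 0) (fun x y hx hy e e' h => by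
      simp only [hx, hy, dif_pos, EmbeddingLike.apply_eq_iff_eq, Subtype.mk.injEq] at h
      exact c.valid (adj _ _ (by simp [d1, e]) (by simp [d1, e'])) h) W [] (by decide) (by simp)
  exact absurd this (by decide +kernel)

end Pool.Agent.Results.MP_3b2a32_co.Chi
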